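import Pool.Agent.Lib.MP_a7ce8b_al.Affine

/-! Complete description of the locally finite primitive groups with property (*) that have a
non-trivial locally soluble normal subgroup. -/

namespace Pool.Agent.Results.MP_a7ce8b_al.Affine

open Pool.Agent.Lib.MP_a7ce8b_al

theorem result (G Ω : Type*) [Group G] [MulAction G Ω] [FaithfulSMul G Ω] [Nontrivial Ω] :
    (IsLocallyFinite G ∧ MulAction.IsPreprimitive G Ω ∧ Star G Ω ∧
      ∃ N : Subgroup G, N.Normal ∧ N ≠ ⊥ ∧ IsLocallySoluble N) ↔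
    ∃ (p : ℕ) (_ : Fact p.Prime) (_ : AddCommGroup Ω) (_ : Module (ZMod p) Ω)
      (G₀ : Subgroup (Ω ≃ₗ[ZMod p] Ω)), p ≠ 2 ∧ ActsAsAffine G G₀ ∧ IsLocallyFinite G₀ ∧
      IsIrreducibleLinear G₀ ∧ LinearEquiv.neg (ZMod p) ∈ G₀ ∧
      ∀ S ≤ G₀, IsPGroup 2 S → H1Trivial S := by
  constructor
  · rintro ⟨h1, h2, h3, N, h4, h5, h6⟩
    exact affine_of_star h1 h2 h3 h4 h5 h6
  · rintro ⟨p, _, _, _, G₀, h1, h2, h3, h4, h5, h6⟩
    exact star_of_affine h1 h2 h3 h4 h5 h6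

end Pool.Agent.Results.MP_a7ce8b_al.Affine
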