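import Pool.Agent.Lib.MP_a7ce8b_al.Mono

/-! A new family: Boolean-power wreath products `C(Z, L) ⋊ K` acting on `C(Z, Γ)`. For simple `L`
the group `K` is the quotient by the smallest non-trivial normal subgroup. -/

namespace Pool.Agent.Results.MP_a7ce8b_al.BooleanPower

open Pool.Agent.Lib.MP_a7ce8b_al

universe u

theorem result (L Γ : Type*) (K : Type u) [Group L] [MulAction L Γ] [FaithfulSMul L Γ] [Finite L]
    [Nontrivial Γ] (hL : MulAction.IsPreprimitive L Γ)
    (hnr : ∃ (l : L) (γ : Γ), l ≠ 1 ∧ l • γ = γ) (hs : Star L Γ)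
    [Group K] [Infinite K] (hK : IsLocallyFinite K) :
    ∃ (Z : Type u) (_ : TopologicalSpace Z) (_ : CompactSpace Z) (_ : T2Space Z)
      (_ : TotallyDisconnectedSpace Z) (_ : MulAction K Z) (_ : ContinuousConstSMul K Z),
      (∀ z : Z, ¬ IsOpen ({z} : Set Z)) ∧ (∀ (k : K) (z : Z), k • z = z → k = 1) ∧ Infinite Z ∧
      Infinite (LocallyConstant Z Γ) ∧ IsLocallyFinite (boolWreath L Γ K Z) ∧
      MulAction.IsPreprimitive (boolWreath L Γ K Z) (LocallyConstant Z Γ) ∧
      Star (boolWreath L Γ K Z) (LocallyConstant Z Γ) ∧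
      (IsSimpleGroup L → IsMonolithic (boolWreath L Γ K Z) (LocallyConstant Z L) K) := by
  obtain ⟨Z, i1, i2, i3, i4, i5, i6, h0, h1, h2, h3, h4, h5, h6, h7⟩ := bool_main hL hnr hs hK
  exact ⟨Z, i1, i2, i3, i4, i5, i6, h1, h2, h3, h4, h5, h6, h7, fun _ =>
    bool_monolith hL.toIsPretransitive hnr h1 h2⟩

end Pool.Agent.Results.MP_a7ce8b_al.BooleanPower
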