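import Pool.Agent.Lib.MP_a7ce8b_al.C.Main

/-! Classification of the countable locally finite primitive groups with (*) whose finite
primitive sections with (*) are on the list of Holt's theorem. -/

namespace Pool.Agent.Results.MP_a7ce8b_al.CountableClass

open Pool.Agent.Lib.MP_a7ce8b_al

theorem result (G Ω : Type) [Group G] [MulAction G Ω] [FaithfulSMul G Ω] [Countable G]
    [Infinite Ω] (hK : KHyp G) :
    (IsLocallyFinite G ∧ MulAction.IsPreprimitive G Ω ∧ Star G Ω) ↔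
    ((∃ (p : ℕ) (_ : Fact p.Prime) (_ : AddCommGroup Ω) (_ : Module (ZMod p) Ω)
      (G₀ : Subgroup (Ω ≃ₗ[ZMod p] Ω)), p ≠ 2 ∧ ActsAsAffine G G₀ ∧ IsLocallyFinite G₀ ∧
      IsIrreducibleLinear G₀ ∧ LinearEquiv.neg (ZMod p) ∈ G₀ ∧
      ∀ S ≤ G₀, IsPGroup 2 S →
        ∃ S₀ ≤ S, Finite S₀ ∧ ∀ v : Ω, (∀ s ∈ S₀, s v = v) → ∀ s ∈ S, s v = v) ∨
    (IsLocallyFinite G ∧ ∃ (E : Type) (_ : Field E) (_ : Infinite E) (D : Datum E),
      (∀ x : E, ∃ n, 0 < n ∧ x ^ 2 ^ n = x) ∧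
      IsProd (MulAction.toPermHom G Ω).range D.L D.A)) := by
  constructor
  · rintro ⟨h1, h2, h3⟩
    rcases classify hK h1 h2 h3 with ⟨N, h4, h5, h6⟩ | h
    · left
      obtain ⟨α⟩ : Nonempty Ω := inferInstance
      have hc : Countable Ω := Function.Surjective.countable (f := fun g : G => g • α)
        fun ω => h2.toIsPretransitive.exists_smul_eq α ω
      have h7 : IsLocallySoluble N := fun s =>
        Group.isSolvable_of_comm fun a b => Subtype.ext (Subtype.ext (h6 _ a.1.2 _ b.1.2))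
      obtain ⟨p, i1, i2, i3, G₀, g1, g2, g3, g4, g5, g6⟩ := affine_of_star h1 h2 h3 h4 h5 h7
      refine ⟨p, i1, i2, i3, G₀, g1, g2, g3, g4, g5, fun S hS hS2 => ?_⟩
      exact min_of_h1 (g3.of_injective _ (Subgroup.inclusion_injective hS))
        fun S' h => g6 S' (h.trans hS) (hS2.to_le h)
    · exact Or.inr ⟨h1, h⟩
  · rintro (⟨p, _, _, _, G₀, h1, h2, h3, h4, h5, h6⟩ | ⟨h1, E, _, _, D, h2, h3⟩)
    · have := star_of_affine h1 h2 h3 h4 h5 fun S hS hS2 => by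
        obtain ⟨S₀, g1, g2, g3⟩ := h6 S hS hS2
        exact h1_of_min h1 hS2 (h3.of_injective _ (Subgroup.inclusion_injective hS)) g1 g3
      exact ⟨this.1, this.2.1, this.2.2.1⟩
    · exact ⟨h1, star_of_prod h1 D h2 h3⟩

end Pool.Agent.Results.MP_a7ce8b_al.CountableClass
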