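import Pool.Agent.Lib.MP_a7ce8b_al.HT.Res

/-! A locally finite group in product action on a set of functions into a countably infinite set,
closed under patching, with a highly transitive component, does not have property (*). -/

namespace Pool.Agent.Results.MP_a7ce8b_al.NoHighlyTransitive

open Pool.Agent.Lib.MP_a7ce8b_al

theorem result (G Ω ι Y : Type*) [Group G] [MulAction G Ω] [Countable Y] [Infinite Y]
    (e : Ω ↪ (ι → Y)) (i : ι)
    (hp : ∀ a b c d : Ω, ∃ x, ∀ j, (e a j = e b j → e x j = e c j) ∧ (e a j ≠ e b j → e x j = e d j))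
    (hsep : ∀ j, j ≠ i → ∃ a b : Ω, e a j = e b j ∧ e a i ≠ e b i) (hlf : IsLocallyFinite G)
    (hwr : ∀ g : G, ∃ (σ : Equiv.Perm ι) (a : ι → Equiv.Perm Y),
      ∀ ω j, e (g • ω) (σ j) = a j (e ω j))
    (hht : ∀ (n : ℕ) (u v : Fin n ↪ Y), ∃ (g : G) (a : Equiv.Perm Y),
      (∀ ω, e (g • ω) i = a (e ω i)) ∧ ∀ k, a (u k) = v k) :
    ¬ Star G Ω :=
  HT.rnot_star e i hp hsep hlf hwr hht

end Pool.Agent.Results.MP_a7ce8b_al.NoHighlyTransitive
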